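import Pool.Agent.PakD

set_option autoImplicit false
set_option linter.unusedSectionVars false

namespace Pool.Agent.Results.MP_7e070a_pr.CycleNoCutoff

open Filter Topology Finset

/-- Convolution powers `μ^{*t}` on `ℤ/n`. -/
noncomputable def conv {n : ℕ} [NeZero n] (μ : ZMod n → ℝ) : ℕ → ZMod n → ℝ
  | 0 => fun x => if x = 0 then 1 else 0
  | t + 1 => fun x => ∑ y, conv μ t y * μ (x - y)

/-- `‖μ^{*t} - U‖_TV` -/
noncomputable def tvdist {n : ℕ} [NeZero n] (μ : ZMod n → ℝ) (t : ℕ) : ℝ :=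
  (1 / 2) * ∑ x, |conv μ t x - 1 / (n : ℝ)|

/-- `T_mix(ε) = min {t : ‖μ^{*t} - U‖_TV ≤ ε}` -/
noncomputable def tmix {n : ℕ} [NeZero n] (μ : ZMod n → ℝ) (ε : ℝ) : ℕ :=
  sInf {t : ℕ | tvdist μ t ≤ ε}

/-- the eigenvalues `∑ₓ μ(x) cos(2π j x / n)` -/
noncomputable def hat {n : ℕ} [NeZero n] (μ : ZMod n → ℝ) (j : ZMod n) : ℝ :=
  ∑ x, μ x * Real.cos (2 * Real.pi * (j.val * x.val) / n)

/-- `λ_*`: the largest absolute value of the eigenvalues with `j ≠ 0`. -/
noncomputable def lamStar {n : ℕ} [NeZero n] (μ : ZMod n → ℝ) : ℝ :=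
  sSup {l : ℝ | ∃ j : ZMod n, j ≠ 0 ∧ l = |hat μ j|}

/-- `T_rel = 1 / (1 - λ_*)` -/
noncomputable def trel {n : ℕ} [NeZero n] (μ : ZMod n → ℝ) : ℝ := 1 / (1 - lamStar μ)

/-- The support of `μ` generates `ℤ/n`. -/
def Irreducible {n : ℕ} (μ : ZMod n → ℝ) : Prop :=
  AddSubgroup.closure {x | 0 < μ x} = ⊤

/-- The walk is aperiodic: the only common divisor of the return times to `0` is `1`. -/
def Aperiodic {n : ℕ} [NeZero n] (μ : ZMod n → ℝ) : Prop :=
  ∀ d : ℕ, (∀ t : ℕ, 1 ≤ t → 0 < conv μ t 0 → d ∣ t) → d = 1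

lemma conv_eq {n : ℕ} [NeZero n] (μ : ZMod n → ℝ) (t : ℕ) : conv μ t = Pak.cv μ t := by
  induction t with
  | zero => rfl
  | succ t ih =>
    funext x
    show ∑ y, conv μ t y * μ (x - y) = ∑ y, Pak.cv μ t y * μ (x - y)
    rw [ih]

lemma tvdist_eq {n : ℕ} (π : Pak.Params n) (t : ℕ) : tvdist (Pak.mu π) t = Pak.tv π t 0 := by
  unfold tvdist
  rw [conv_eq]
  exact Pak.cv_tv π t

lemma tmix_eq {n : ℕ} (π : Pak.Params n) (ε : ℝ) :
    tmix (Pak.mu π) ε = Pak.tm (fun t => Pak.tv π t 0) ε := by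
  unfold tmix Pak.tm
  simp_rw [tvdist_eq]

lemma lam_le {n : ℕ} (π : Pak.Params n) (hn : 1 ≤ n) : lamStar (Pak.mu π) ≤ 5 / 6 := by
  unfold lamStar
  apply Real.sSup_le _ (by norm_num)
  rintro l ⟨j, hj, rfl⟩
  exact Pak.mu_cos π hn j hj

/-- **Main theorem.** It is false that every sequence of symmetric irreducible aperiodic convolution
walks on cycles `ℤ/n_k`, `n_k → ∞`, satisfying the product condition has total variation cutoff. -/
theorem result :
    ¬ (∀ (n : ℕ → ℕ) [∀ k, NeZero (n k)] (μ : ∀ k, ZMod (n k) → ℝ),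
        (∀ k, 2 ≤ n k) → Tendsto n atTop atTop →
        (∀ k x, 0 ≤ μ k x) → (∀ k, ∑ x, μ k x = 1) → (∀ k x, μ k (-x) = μ k x) →
        (∀ k, Irreducible (μ k)) → (∀ k, Aperiodic (μ k)) →
        Tendsto (fun k => (tmix (μ k) (1 / 4) : ℝ) / trel (μ k)) atTop atTop →
        ∀ ε : ℝ, 0 < ε → ε < 1 / 2 →
          Tendsto (fun k => (tmix (μ k) ε : ℝ) / tmix (μ k) (1 - ε)) atTop (𝓝 1)) := by
  intro H
  have h100 : ∀ n : ℕ, 100 ≤ n + 100 := fun n => by omega
  have h1 : ∀ n : ℕ, 1 ≤ n + 100 := fun n => by omega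
  have hlow : ∀ n : ℕ, ∀ t ≤ n + 100, 27 / 40 ≤ Pak.tv (Pak.par n) t 0 :=
    fun n t ht => Pak.tv_lower (Pak.par n) (by omega) t ht 0
  have hup : ∀ n : ℕ, ∀ t, Pak.tv (Pak.par n) t 0 ≤
      (1 - Pak.bet (Pak.par n)) ^ t + 4 * Pak.bet (Pak.par n) :=
    fun n t => Pak.tv_upper (Pak.par n) (h1 n) t 0
  have h2 := H (fun n => Pak.NN (Pak.par n)) (fun n => Pak.mu (Pak.par n))
    (fun n => by have := Pak.NN_ge (Pak.par n); omega)
    (by
      apply tendsto_atTop_mono (fun n => Pak.NN_ge (Pak.par n))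
      exact tendsto_atTop_mono (fun n => Nat.le_add_right n 100) tendsto_id)
    (fun n => Pak.mu_nonneg _) (fun n => Pak.mu_sum _) (fun n => Pak.mu_neg _)
    (fun n => Pak.mu_closure _ _ (fun x hx => AddSubgroup.subset_closure hx))
    (fun n d hd => by
      have := hd 1 le_rfl (by
        show 0 < ∑ y, (if y = 0 then (1 : ℝ) else 0) * Pak.mu (Pak.par n) (0 - y)
        simp only [ite_mul, one_mul, zero_mul, Finset.sum_ite_eq', mem_univ, if_true, sub_zero]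
        rw [Pak.mu_zero]
        norm_num)
      exact Nat.dvd_one.1 this)
    (by
      simp_rw [tmix_eq]
      have h3 : Tendsto (fun n : ℕ => (n : ℝ) / 6) atTop atTop :=
        tendsto_natCast_atTop_atTop.atTop_div_const (by norm_num)
      apply tendsto_atTop_mono _ h3
      intro n
      have h4 := Pak.tm_lower (ε := 1 / 4) (h100 n) (Pak.bet_pos (Pak.par n))
        (Pak.bet_le (Pak.par n) (h1 n)) (hlow n) (hup n) (by norm_num) (by norm_num)
      have h5 := lam_le (Pak.par n) (h1 n)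
      unfold trel
      rw [div_div_eq_mul_div, div_one]
      have h6 : (n : ℝ) ≤ Pak.tm (fun t => Pak.tv (Pak.par n) t 0) (1 / 4) := by
        have : n ≤ Pak.tm (fun t => Pak.tv (Pak.par n) t 0) (1 / 4) := by omega
        exact_mod_cast this
      have h7 : (1 : ℝ) / 6 ≤ 1 - lamStar (Pak.mu (Pak.par n)) := by linarith
      calc (n : ℝ) / 6 = n * (1 / 6) := by ring
        _ ≤ _ := mul_le_mul h6 h7 (by norm_num) (by positivity))
    (1 / 50) (by norm_num) (by norm_num)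
  simp_rw [tmix_eq] at h2
  have e : (1 : ℝ) - 1 / 50 = 49 / 50 := by norm_num
  rw [e] at h2
  refine Pak.not_tendsto_ratio _ _ (fun n => n + 100) (fun n => ⟨?_, ?_⟩) h2
  · exact Pak.tm_lower (h100 n) (Pak.bet_pos (Pak.par n))
      (Pak.bet_le (Pak.par n) (h1 n)) (hlow n) (hup n) (by norm_num) (by norm_num)
  · exact Pak.tm_upper (h100 n) (Pak.bet_le (Pak.par n) (h1 n)) (Pak.bet_ge (Pak.par n)) (hup n)

end Pool.Agent.Results.MP_7e070a_pr.CycleNoCutoff
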